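import Pool.Agent.helper1.P2F.Iface
import Pool.Agent.helper57.V3.TMO

/-!
# Project p2k: (MP_70a088_an, P2, NC): THE LIMIT PART OF THE FLOW ROUTE (helper28)

`K` = the limit of the flow of the closing in the disc coordinate of `V_n(y)`, defined on the sector `Sc k`.
`LIMK`: limits of holomorphic maps into the disc. `CONE`: translation type: the source domain contains a cone. `DILA`: dilation type: contradiction.
-/

set_option autoImplicit false

open Complex Metric Set Filter Topology MeasureTheory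
open HY (UD)

noncomputable section

namespace NCF

/-- the open sector `|re s| < k im s`. -/
def Sc (k : ℝ) : Set ℂ := {s : ℂ | |s.re| < k * s.im}

theorem Sc_open (k : ℝ) : IsOpen (Sc k) := isOpen_lt (by fun_prop) (by fun_prop)

theorem Sc_convex (k : ℝ) : Convex ℝ (Sc k) := by
  intro s hs t ht a b ha hb hab
  simp only [Sc, mem_setOf_eq, add_re, add_im, real_smul, mul_re, mul_im, ofReal_re, ofReal_im, zero_mul, sub_zero, add_zero] at hs ht ⊢
  rcases eq_or_lt_of_le ha with h | h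
  · have hb1 : b = 1 := by linarith
    subst hb1
    rw [← h]
    simpa using ht
  · have h1 : |a * s.re + b * t.re| ≤ a * |s.re| + b * |t.re| := by
      refine (abs_add_le _ _).trans ?_
      rw [abs_mul, abs_mul, abs_of_nonneg ha, abs_of_nonneg hb]
    have h2 : a * |s.re| < a * (k * s.im) := mul_lt_mul_of_pos_left hs h
    have h3 : b * |t.re| ≤ b * (k * t.im) := mul_le_mul_of_nonneg_left ht.le hb
    nlinarith

theorem Sc_im (k : ℝ) (hk : 0 < k) (s : ℂ) (hs : s ∈ Sc k) : 0 < s.im := by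
  have h : 0 < k * s.im := lt_of_le_of_lt (abs_nonneg _) hs
  exact (pos_iff_pos_of_mul_pos h).1 hk

/-- LIMK: limits of holomorphic maps into the disc. -/
theorem LIMK (U : Ultrafilter ℕ) (K : ℕ → ℂ → ℂ) (D : Set ℂ) (hD : IsOpen D) (hc : IsPreconnected D) (s₀ v₀ : ℂ) (hs₀ : s₀ ∈ D) (hv₀ : v₀ ∈ UD)
    (h : ∀ s ∈ D, ∃ r > (0 : ℝ), ∀ᶠ j in (U : Filter ℕ), DifferentiableOn ℂ (K j) (ball s r) ∧ MapsTo (K j) (ball s r) UD)
    (h0 : Tendsto (fun j => K j s₀) U (𝓝 v₀)) :
    ∃ F : ℂ → ℂ, DifferentiableOn ℂ F D ∧ MapsTo F D UD ∧ TendstoLocallyUniformlyOn K F U D ∧ F s₀ = v₀ := by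
  obtain ⟨F, hF, hKF⟩ := V3.TMO U K D hD fun s hs => by
    obtain ⟨r, hr, hj⟩ := h s hs
    refine ⟨r, hr, 1, ?_⟩
    filter_upwards [hj] with j hj
    refine ⟨hj.1, fun y hy => ?_⟩
    have := hj.2 hy
    rw [HY.UD, mem_ball_zero_iff] at this
    exact this.le
  have hpt : ∀ s ∈ D, Tendsto (fun j => K j s) U (𝓝 (F s)) := fun s hs => hKF.tendsto_at hs
  have hle : ∀ s ∈ D, ‖F s‖ ≤ 1 := by
    intro s hs
    refine le_of_tendsto (hpt s hs).norm ?_
    obtain ⟨r, hr, hj⟩ := h s hs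
    filter_upwards [hj] with j hj
    have := hj.2 (mem_ball_self hr)
    rw [HY.UD, mem_ball_zero_iff] at this
    exact this.le
  have hF0 : F s₀ = v₀ := tendsto_nhds_unique (hpt s₀ hs₀) h0
  refine ⟨F, hF, fun s hs => ?_, hKF, hF0⟩
  rw [HY.UD, mem_ball_zero_iff]
  by_contra hlt
  have h1 : ‖F s‖ = 1 := le_antisymm (hle s hs) (not_lt.1 hlt)
  have hmax : IsMaxOn (norm ∘ F) D s := fun z hz => by
    simp only [mem_setOf_eq, Function.comp_apply]
    rw [h1]
    exact hle z hz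
  have h2 := Complex.norm_eqOn_of_isPreconnected_of_isMaxOn hc hD hF hs hmax
  have h3 := h2 hs₀
  simp only [Function.comp_apply, Function.const_apply] at h3
  rw [h1, hF0] at h3
  rw [HY.UD, mem_ball_zero_iff] at hv₀
  linarith

/-- CONE: translation type: the source domain contains the cone. -/
theorem CONE (Ω : Set ℂ) (G : ℂ → ℂ) (hE : P2F.EXTP Ω G) (k : ℝ) (K : ℂ → ℂ) (hK : DifferentiableOn ℂ K (Sc k)) (hU : MapsTo K (Sc k) UD)
    (z₁ be : ℂ) (hb : be ≠ 0) (s₀ : ℂ) (hs₀ : s₀ ∈ Sc k) (h0 : z₁ + be * s₀ ∈ Ω) (hg : ∀ᶠ s in 𝓝 s₀, K s = G (z₁ + be * s)) :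
    ∀ s ∈ Sc k, z₁ + be * s ∈ Ω ∧ G (z₁ + be * s) = K s := by
  let N : Set ℂ := (fun z => (z - z₁) / be) ⁻¹' (Sc k)
  have hφ : Differentiable ℂ fun z : ℂ => (z - z₁) / be := by fun_prop
  have hN : IsOpen N := (Sc_open k).preimage hφ.continuous
  have himg : N = (fun s => z₁ + be * s) '' Sc k := by
    ext z
    constructor
    · intro hz
      exact ⟨(z - z₁) / be, hz, by field_simp; ring⟩
    · rintro ⟨s, hs, rfl⟩
      simp only [N, mem_preimage]
      have : (z₁ + be * s - z₁) / be = s := by field_simp; ring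
      rw [this]
      exact hs
  have hNc : IsPreconnected N := by
    rw [himg]
    exact (Sc_convex k).isPreconnected.image _ (by fun_prop)
  have hKN : DifferentiableOn ℂ (fun z => K ((z - z₁) / be)) N := hK.comp hφ.differentiableOn fun z hz => hz
  have hs : ∀ s : ℂ, (z₁ + be * s - z₁) / be = s := fun s => by field_simp; ring
  have hgN : ∀ᶠ z in 𝓝 (z₁ + be * s₀), G z = K ((z - z₁) / be) := by
    have hc : Tendsto (fun z : ℂ => (z - z₁) / be) (𝓝 (z₁ + be * s₀)) (𝓝 s₀) := by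
      have := hφ.continuous.tendsto (z₁ + be * s₀)
      rwa [hs] at this
    filter_upwards [hc.eventually hg] with z hz
    rw [hz]
    congr 1
    field_simp
    ring
  obtain ⟨h1, h2⟩ := hE N (fun z => K ((z - z₁) / be)) hN hNc hKN (fun z hz => hU hz) (z₁ + be * s₀)
    (by simp only [N, mem_preimage, hs]; exact hs₀) h0 hgN
  intro s hsS
  have hsN : z₁ + be * s ∈ N := by simp only [N, mem_preimage, hs]; exact hsS
  refine ⟨h1 hsN, ?_⟩
  have h3 := h2 hsN
  simp only [hs] at h3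
  exact h3

end NCF
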